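import Mathlib
import Pool.Agent.H47.LogFun

/-- For every k there is a logarithmic function of length k taking at least k/8 values. -/
theorem Pool.Agent.Results.MP_0b9f2e_nt.LinearImage.result (k : ℕ) (hk : 1 ≤ k) :
    ∃ f : ℕ → ZMod k,
      (∀ a ∈ Finset.Icc 1 k, ∀ b ∈ Finset.Icc 1 k, a * b ≤ k → f (a * b) = f a + f b) ∧
      k ≤ 8 * ((Finset.Icc 1 k).image f).card := by
  obtain ⟨f, h1, h2⟩ := Pool.Agent.H47.LogFun.main k hk
  exact ⟨f, fun a ha b hb _ =>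
    h1 a b (Finset.mem_Icc.mp ha).1 (Finset.mem_Icc.mp hb).1, h2⟩
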